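import Pool.Agent.H232R3.MOAlt

set_option autoImplicit false

/-!
# Landau's lemma for the exponential of a Dirichlet series, in a domain containing a real half-line
-/

open Filter Topology Finset
open scoped ComplexOrder

namespace Pool.Agent.Y853.RG

open Pool.H232R3 (Alt Alt_exp_sub DPs tl tl_hasSum)

/-- power series continuation to the left, in a ball -/
theorem ball_nonneg' (v : ℂ → ℂ) {c r : ℝ} (hv : DifferentiableOn ℂ v (Metric.ball (c : ℂ) r))
    (halt : Alt v (c : ℂ)) {x : ℝ} (hx : c - r < x) (hx2 : x ≤ c) : 0 ≤ v x := by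
  set G : ℂ → ℂ := fun z => v (-z) with hG
  have hball : DifferentiableOn ℂ G (Metric.ball (-(c : ℂ)) r) := by
    have hsub : ∀ z ∈ Metric.ball (-(c : ℂ)) r, -z ∈ Metric.ball (c : ℂ) r := by
      intro z hz
      rw [Metric.mem_ball, dist_eq_norm] at hz ⊢
      rw [← norm_neg]
      have : -(-z - (c : ℂ)) = z - -(c : ℂ) := by ring
      rwa [this]
    exact hv.comp (differentiable_neg.differentiableOn) hsub
  have hfin := hball.nonneg_of_iteratedDeriv_nonneg (c := -(c : ℂ)) ?_ (z := -(x : ℂ)) ?_ ?_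
  · simpa only [hG, neg_neg] using hfin
  · intro n
    have h6 := iteratedDeriv_comp_neg n v (-(c : ℂ))
    rw [neg_neg, smul_eq_mul] at h6
    show 0 ≤ iteratedDeriv n (fun z : ℂ => v (-z)) (-(c : ℂ))
    rw [h6]
    exact halt n
  · rw [neg_le_neg_iff]
    exact_mod_cast hx2
  · rw [Metric.mem_ball, dist_eq_norm]
    have : -(x : ℂ) - -(c : ℂ) = ((c - x : ℝ) : ℂ) := by push_cast; ring
    rw [this, Complex.norm_real, Real.norm_eq_abs, abs_of_nonneg (by linarith)]
    linarith

/-- Landau's lemma in a ball -/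
theorem exp_landau_ball {d : ℕ → ℂ} (hd : 0 ≤ d) {R : ℂ → ℂ} {c r x0 : ℝ} (hx0 : x0 < c)
    (hR : DifferentiableOn ℂ R (Metric.ball (c : ℂ) r))
    (hs : ∀ s : ℂ, x0 < s.re → LSeriesSummable d s)
    (he : ∀ᶠ s in 𝓝 (c : ℂ), R s = Complex.exp (LSeries d s))
    {x : ℝ} (hx : c - r < x) (hx2 : x ≤ c) : LSeriesSummable d x := by
  have habs : ∀ t : ℕ → ℂ, (∀ s : ℂ, x0 < s.re → LSeriesSummable t s) →
      LSeries.abscissaOfAbsConv t < ((c : ℝ) : EReal) := by
    intro t ht
    have : LSeries.abscissaOfAbsConv t ≤ ((x0 : ℝ) : EReal) := by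
      refine LSeries.abscissaOfAbsConv_le_of_forall_lt_LSeriesSummable ?_
      intro y hy
      exact ht y (by simpa using hy)
    exact lt_of_le_of_lt this (by exact_mod_cast hx0)
  have hda := habs d hs
  have han : AnalyticAt ℂ (LSeries d) ((c : ℝ) : ℂ) :=
    (LSeries_analyticOnNhd d) _ (by simpa using hda)
  have halt : Alt (LSeries d) ((c : ℝ) : ℂ) := fun n => LSeries.iteratedDeriv_alternating hd hda n
  have hkey : ∀ N : ℕ, DPs d N x ≤ R x := by
    intro N
    have htl0 : 0 ≤ tl d N := by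
      intro n
      unfold tl
      split_ifs
      · exact le_rfl
      · exact hd n
    have hta := habs (tl d N) (fun s hs' => (tl_hasSum d N s (hs s hs')).LSeriesSummable)
    have htan : AnalyticAt ℂ (LSeries (tl d N)) ((c : ℝ) : ℂ) :=
      (LSeries_analyticOnNhd _) _ (by simpa using hta)
    have halt2 : Alt (LSeries (tl d N)) ((c : ℝ) : ℂ) :=
      fun n => LSeries.iteratedDeriv_alternating htl0 hta n
    have hdiffP : Differentiable ℂ (DPs d N) := by
      unfold DPs
      refine Differentiable.fun_sum fun n _ => ?_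
      intro s
      exact (LSeries.hasDerivAt_term d n s).differentiableAt
    have halt3 : Alt (fun s => R s - DPs d N s) ((c : ℝ) : ℂ) := by
      intro n
      have hev : (fun s => R s - DPs d N s) =ᶠ[𝓝 ((c : ℝ) : ℂ)]
          fun s => (Complex.exp (LSeries d s) - LSeries d s) + LSeries (tl d N) s := by
        have ho : IsOpen {s : ℂ | x0 < s.re} := Complex.continuous_re.isOpen_preimage _ isOpen_Ioi
        filter_upwards [he, ho.mem_nhds (show ((c : ℝ) : ℂ) ∈ {s : ℂ | x0 < s.re} by simpa using hx0)]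
          with s h1 h2
        rw [h1, (tl_hasSum d N s (hs s h2)).LSeries_eq]
        ring
      rw [hev.iteratedDeriv_eq n]
      have e1 : iteratedDeriv n (fun s => (Complex.exp (LSeries d s) - LSeries d s)
          + LSeries (tl d N) s) ((c : ℝ) : ℂ)
          = iteratedDeriv n (fun s => Complex.exp (LSeries d s) - LSeries d s) ((c : ℝ) : ℂ)
            + iteratedDeriv n (LSeries (tl d N)) ((c : ℝ) : ℂ) :=
        iteratedDeriv_fun_add (han.cexp.sub han).contDiffAt htan.contDiffAt
      rw [e1, mul_add]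
      exact add_nonneg (Alt_exp_sub _ _ han halt n) (halt2 n)
    have := ball_nonneg' _ (hR.sub hdiffP.differentiableOn) halt3 hx hx2
    exact sub_nonneg.mp this
  unfold LSeriesSummable
  have hnn : ∀ n, 0 ≤ LSeries.term d (x : ℂ) n := fun n => LSeries.term_nonneg (hd n) x
  have hre : ∀ n, LSeries.term d (x : ℂ) n = ((LSeries.term d (x : ℂ) n).re : ℂ) :=
    fun n => Complex.eq_re_of_ofReal_le (r := 0) (by simpa using hnn n)
  have hnn' : ∀ n, 0 ≤ (LSeries.term d (x : ℂ) n).re := fun n => (Complex.le_def.mp (hnn n)).1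
  have hs' : Summable fun n => (LSeries.term d (x : ℂ) n).re := by
    refine summable_of_sum_range_le (c := (R x).re) hnn' fun N => ?_
    have h2 := (Complex.le_def.mp (hkey N)).1
    unfold DPs at h2
    rw [Complex.re_sum] at h2
    exact h2
  have h3 := Complex.hasSum_ofReal.mpr hs'.hasSum
  refine h3.summable.congr fun n => ?_
  exact (hre n).symm

/-- Landau's lemma in an open set containing a real half-line -/
theorem landau_dom {d : ℕ → ℂ} (hd : 0 ≤ d) {R : ℂ → ℂ} {θ : ℝ} {D : Set ℂ} (hD : IsOpen D)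
    (hreal : ∀ x : ℝ, θ < x → (x : ℂ) ∈ D) (hR : DifferentiableOn ℂ R D)
    (h1 : ∀ s : ℂ, 1 < s.re → LSeriesSummable d s)
    (h2 : ∀ s : ℂ, 1 < s.re → R s = Complex.exp (LSeries d s))
    {x : ℝ} (hx : θ < x) : LSeriesSummable d x := by
  by_contra hcon
  set S : Set ℝ := {y : ℝ | x ≤ y ∧ LSeriesSummable d y} with hS
  have hbdd : BddBelow S := ⟨x, fun y hy => hy.1⟩
  have hx1 : x ≤ 2 := by
    by_contra h
    push Not at h
    exact hcon (h1 x (by simp; linarith))
  have hne : S.Nonempty := ⟨2, hx1, h1 _ (by norm_num)⟩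
  set m : ℝ := sInf S with hm
  have hxm : x ≤ m := le_csInf hne fun y hy => hy.1
  have hsum : ∀ s : ℂ, m < s.re → LSeriesSummable d s := by
    intro s hs
    obtain ⟨y, hy, hys⟩ := exists_lt_of_csInf_lt hne hs
    exact hy.2.of_re_le_re (by simpa using hys.le)
  have hm1 : m ≤ 1 := by
    refine le_of_forall_pos_lt_add fun ε hε => ?_
    have hmem : max x (1 + ε / 2) ∈ S := ⟨le_max_left _ _, h1 _ (by
      simp only [Complex.ofReal_re]
      exact lt_of_lt_of_le (by linarith) (le_max_right _ _))⟩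
    rcases le_total x (1 + ε / 2) with h | h
    · rw [max_eq_right h] at hmem
      have := csInf_le hbdd hmem
      linarith
    · exfalso
      exact hcon (h1 x (by simp only [Complex.ofReal_re]; linarith))
  obtain ⟨ρ, hρ, hball⟩ := Metric.isOpen_iff.1 hD _ (hreal m (by linarith))
  set η : ℝ := ρ / 3 with hη
  have hη0 : 0 < η := by rw [hη]; positivity
  have hb2 : Metric.ball ((m + η : ℝ) : ℂ) (2 * η) ⊆ D := by
    refine subset_trans (fun z hz => ?_) hball
    rw [Metric.mem_ball] at hz ⊢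
    have h3 : dist ((m + η : ℝ) : ℂ) (m : ℂ) = η := by
      rw [dist_eq_norm]
      have : ((m + η : ℝ) : ℂ) - (m : ℂ) = ((η : ℝ) : ℂ) := by push_cast; ring
      rw [this, Complex.norm_real, Real.norm_eq_abs, abs_of_pos hη0]
    calc dist z (m : ℂ) ≤ dist z ((m + η : ℝ) : ℂ) + dist ((m + η : ℝ) : ℂ) (m : ℂ) :=
          dist_triangle _ _ _
      _ < 2 * η + η := by rw [h3]; linarith
      _ = ρ := by rw [hη]; ring
  -- `R = exp (LSeries d)` near the real points to the right of `m`
  have hrayR : AnalyticOnNhd ℂ R ((fun y : ℝ => (y : ℂ)) '' Set.Ioi m) := by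
    rintro _ ⟨y, hy, rfl⟩
    have hyD := hreal y (lt_of_lt_of_le hx (hxm.trans (le_of_lt hy)))
    exact hR.analyticAt (hD.mem_nhds hyD)
  have hdan : ∀ s : ℂ, m < s.re → AnalyticAt ℂ (LSeries d) s := by
    intro s hs
    refine (LSeries_analyticOnNhd d) s ?_
    have h4 : LSeries.abscissaOfAbsConv d ≤ ((m : ℝ) : EReal) := by
      refine LSeries.abscissaOfAbsConv_le_of_forall_lt_LSeriesSummable ?_
      intro y hy
      exact hsum y (by simpa using hy)
    exact lt_of_le_of_lt h4 (by exact_mod_cast hs)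
  have hrayE : AnalyticOnNhd ℂ (fun s => Complex.exp (LSeries d s))
      ((fun y : ℝ => (y : ℂ)) '' Set.Ioi m) := by
    rintro _ ⟨y, hy, rfl⟩
    exact (hdan _ (by simpa using hy)).cexp
  have hconn : IsPreconnected ((fun y : ℝ => (y : ℂ)) '' Set.Ioi m) :=
    isPreconnected_Ioi.image _ Complex.continuous_ofReal.continuousOn
  have hopen1 : IsOpen {s : ℂ | 1 < s.re} := Complex.continuous_re.isOpen_preimage _ isOpen_Ioi
  have hEq : Set.EqOn R (fun s => Complex.exp (LSeries d s)) ((fun y : ℝ => (y : ℂ)) '' Set.Ioi m) := by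
    refine hrayR.eqOn_of_preconnected_of_eventuallyEq hrayE hconn (z₀ := ((2 : ℝ) : ℂ))
      ⟨2, by simp only [Set.mem_Ioi]; linarith, rfl⟩ ?_
    filter_upwards [hopen1.mem_nhds (show ((2 : ℝ) : ℂ) ∈ {s : ℂ | 1 < s.re} by simp)] with s hs
    exact h2 s hs
  have hev : ∀ᶠ s in 𝓝 (((m + η : ℝ)) : ℂ), R s = Complex.exp (LSeries d s) := by
    have a1 := hrayR _ ⟨m + η, by simp only [Set.mem_Ioi]; linarith, rfl⟩
    have a2 := hrayE _ ⟨m + η, by simp only [Set.mem_Ioi]; linarith, rfl⟩
    rw [← a1.frequently_eq_iff_eventually_eq a2]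
    have h5 : Tendsto (fun y : ℝ => (y : ℂ)) (𝓝[>] (m + η)) (𝓝[≠] ((m + η : ℝ) : ℂ)) := by
      refine tendsto_nhdsWithin_iff.2 ⟨?_, ?_⟩
      · exact (Complex.continuous_ofReal.tendsto _).mono_left nhdsWithin_le_nhds
      · filter_upwards [self_mem_nhdsWithin] with y hy
        rw [Set.mem_compl_singleton_iff]
        intro h
        exact (ne_of_gt hy) (Complex.ofReal_injective h)
    refine h5.frequently (Eventually.frequently ?_)
    filter_upwards [self_mem_nhdsWithin] with y hy
    exact hEq ⟨y, by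
      simp only [Set.mem_Ioi] at hy ⊢
      linarith, rfl⟩
  have hsm : LSeriesSummable d ((m - η / 2 : ℝ) : ℂ) := by
    refine exp_landau_ball hd (c := m + η) (r := 2 * η) (x0 := m) (by linarith) (hR.mono hb2) hsum hev
      (by linarith) (by linarith)
  -- contradiction
  rcases lt_or_ge (m - η / 2) x with h6 | h6
  · exact hcon (hsm.of_re_le_re (by simpa using h6.le))
  · have h7 : m - η / 2 ∈ S := ⟨h6, hsm⟩
    have := csInf_le hbdd h7
    linarith

end Pool.Agent.Y853.RG
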