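import Mathlib

set_option autoImplicit false

/-!
# Functions whose logarithmic derivative is bounded by `k Λ`
-/

open Filter Topology Finset ArithmeticFunction

open scoped ArithmeticFunction.zeta ArithmeticFunction.Moebius

namespace Pool.Agent.Y853.RG

/-- `f(1) = 1`, `f log = f * g` and `|g| ≤ k Λ` -/
structure Cls (k : ℕ) (f g : ℕ → ℂ) : Prop where
  one : f 1 = 1
  conv : ∀ n : ℕ, 1 ≤ n → f n * (Real.log n : ℂ) = ∑ d ∈ n.divisors, f (n / d) * g d
  bound : ∀ n : ℕ, 1 ≤ n → ‖g n‖ ≤ k * vonMangoldt n

/-- `log` is a derivation -/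
theorem log_der (f g : ArithmeticFunction ℝ) :
    (f * g).pmul log = f.pmul log * g + f * g.pmul log := by
  ext n
  rcases Nat.eq_zero_or_pos n with rfl | hn
  · simp
  rw [pmul_apply, ArithmeticFunction.add_apply, mul_apply, mul_apply, mul_apply, Finset.sum_mul, ← Finset.sum_add_distrib]
  refine Finset.sum_congr rfl fun x hx => ?_
  obtain ⟨h1, h2⟩ := Nat.mem_divisorsAntidiagonal.1 hx
  have ha : (x.1 : ℝ) ≠ 0 := by
    rintro h
    have : x.1 = 0 := by exact_mod_cast h
    rw [this, zero_mul] at h1
    exact h2 h1.symm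
  have hb : (x.2 : ℝ) ≠ 0 := by
    rintro h
    have : x.2 = 0 := by exact_mod_cast h
    rw [this, mul_zero] at h1
    exact h2 h1.symm
  rw [pmul_apply, pmul_apply, log_apply, log_apply, log_apply, ← h1]
  push_cast
  rw [Real.log_mul ha hb]
  ring

/-- the divisor function -/
noncomputable def Dk (k : ℕ) : ArithmeticFunction ℝ := ((ζ : ArithmeticFunction ℕ) : ArithmeticFunction ℝ) ^ k

theorem pmul_zeta_log : ((ζ : ArithmeticFunction ℕ) : ArithmeticFunction ℝ).pmul log = log := by
  ext n
  rcases Nat.eq_zero_or_pos n with rfl | hn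
  · simp
  · rw [pmul_apply, natCoe_apply, zeta_apply, if_neg hn.ne', Nat.cast_one, one_mul]

theorem Dk_log (k : ℕ) : (Dk k).pmul log = Dk k * ((k : ArithmeticFunction ℝ) * Λ) := by
  induction k with
  | zero =>
    unfold Dk
    rw [pow_zero, Nat.cast_zero, zero_mul, mul_zero]
    ext n
    rw [pmul_apply, one_apply, ArithmeticFunction.zero_apply]
    split_ifs with h
    · rw [h, log_apply]; simp
    · rw [zero_mul]
  | succ k ih =>
    have e : Dk (k + 1) = Dk k * (ζ : ArithmeticFunction ℕ) := by
      unfold Dk; rw [pow_succ]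
    rw [e, log_der, ih, pmul_zeta_log, ← vonMangoldt_mul_zeta]
    push_cast
    ring

theorem natCast_mul_apply' (k : ℕ) (f : ArithmeticFunction ℝ) (n : ℕ) :
    ((k : ArithmeticFunction ℝ) * f) n = k * f n := by
  rw [← nsmul_eq_mul]
  induction k with
  | zero => simp
  | succ k ih => rw [succ_nsmul, ArithmeticFunction.add_apply, ih]; push_cast; ring

theorem Dk_nonneg (k n : ℕ) : 0 ≤ Dk k n := by
  induction k generalizing n with
  | zero =>
    unfold Dk
    rw [pow_zero, one_apply]
    split_ifs <;> norm_num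
  | succ k ih =>
    have e : Dk (k + 1) = Dk k * (ζ : ArithmeticFunction ℕ) := by
      unfold Dk; rw [pow_succ]
    rw [e, coe_mul_zeta_apply]
    exact Finset.sum_nonneg fun d _ => ih d

theorem Dk_one (k : ℕ) : Dk k 1 = 1 := by
  induction k with
  | zero => unfold Dk; rw [pow_zero, one_apply, if_pos rfl]
  | succ k ih =>
    have e : Dk (k + 1) = Dk k * (ζ : ArithmeticFunction ℕ) := by
      unfold Dk; rw [pow_succ]
    rw [e, coe_mul_zeta_apply, Nat.divisors_one, Finset.sum_singleton, ih]

variable {k : ℕ} {f g : ℕ → ℂ}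

theorem Cls.g_one (h : Cls k f g) : g 1 = 0 := by
  have := h.bound 1 le_rfl
  rw [vonMangoldt_apply_one, mul_zero] at this
  exact norm_le_zero_iff.1 this

/-- the functions in the class are bounded by divisor functions -/
theorem Cls.le_Dk (h : Cls k f g) : ∀ n : ℕ, 1 ≤ n → ‖f n‖ ≤ Dk k n := by
  intro n
  induction n using Nat.strong_induction_on with
  | _ n ih =>
    intro hn
    rcases Nat.lt_or_ge 1 n with h1 | h1
    · have hlog : 0 < Real.log n := Real.log_pos (by exact_mod_cast h1)
      have e1 := h.conv n hn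
      have e2 : ‖f n‖ * Real.log n ≤ ∑ d ∈ n.divisors, Dk k (n / d) * (k * Λ d) := by
        have : ‖f n‖ * Real.log n = ‖f n * (Real.log n : ℂ)‖ := by
          rw [norm_mul, Complex.norm_real, Real.norm_of_nonneg hlog.le]
        rw [this, e1]
        refine (norm_sum_le _ _).trans (Finset.sum_le_sum fun d hd => ?_)
        have hdd := Nat.dvd_of_mem_divisors hd
        have hd0 : 1 ≤ d := Nat.pos_of_mem_divisors hd
        rw [norm_mul]
        rcases Nat.eq_or_lt_of_le hd0 with h2 | h2
        · rw [← h2, h.g_one, norm_zero, mul_zero, vonMangoldt_apply_one, mul_zero, mul_zero]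
        · have h3 : n / d < n := Nat.div_lt_self (by omega) h2
          have h4 : 1 ≤ n / d := Nat.div_pos (Nat.le_of_dvd (by omega) hdd) (by omega)
          have h5 := h.bound d hd0
          exact mul_le_mul (ih _ h3 h4) h5 (norm_nonneg _) (Dk_nonneg _ _)
      have e3 : ∑ d ∈ n.divisors, Dk k (n / d) * (k * Λ d) = Dk k n * Real.log n := by
        have h6 := congrArg (fun F : ArithmeticFunction ℝ => F n) (Dk_log k)
        simp only [pmul_apply, log_apply] at h6
        rw [h6, mul_apply]
        rw [Nat.sum_divisorsAntidiagonal' (fun a b => Dk k a * ((k : ArithmeticFunction ℝ) * Λ) b)]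
        refine Finset.sum_congr rfl fun d _ => ?_
        rw [natCast_mul_apply']
      rw [e3] at e2
      exact le_of_mul_le_mul_right e2 hlog
    · have : n = 1 := by omega
      rw [this, h.one, norm_one, Dk_one]

theorem Dk_summable (k : ℕ) {s : ℂ} (hs : 1 < s.re) : LSeriesSummable (fun n => ((Dk k n : ℝ) : ℂ)) s := by
  have key : ∀ k : ℕ, LSeriesSummable
      (fun n => (((((ζ : ArithmeticFunction ℕ) : ArithmeticFunction ℂ)) ^ k) n)) s := by
    intro k
    induction k with
    | zero =>
      rw [pow_zero]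
      refine summable_of_ne_finset_zero (s := {1}) fun n hn => ?_
      rw [Finset.mem_singleton] at hn
      rw [LSeries.term_def, one_apply, if_neg hn, zero_div, ite_self]
    | succ k ih =>
      rw [pow_succ]
      exact LSeriesSummable_mul ih (by simpa using LSeriesSummable_zeta_iff.2 hs)
  have e : ∀ (k n : ℕ), (((((ζ : ArithmeticFunction ℕ) : ArithmeticFunction ℂ)) ^ k) n) =
      ((Dk k n : ℝ) : ℂ) := by
    intro k
    induction k with
    | zero =>
      intro n
      unfold Dk
      rw [pow_zero, pow_zero, one_apply, one_apply]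
      split_ifs <;> simp
    | succ k ih =>
      intro n
      have e : Dk (k + 1) = Dk k * (ζ : ArithmeticFunction ℕ) := by
        unfold Dk; rw [pow_succ]
      rw [e, pow_succ, coe_mul_zeta_apply, coe_mul_zeta_apply, Complex.ofReal_sum]
      exact Finset.sum_congr rfl fun d _ => ih d
  have h := key k
  rwa [show (fun n => (((((ζ : ArithmeticFunction ℕ) : ArithmeticFunction ℂ)) ^ k) n)) =
    fun n => ((Dk k n : ℝ) : ℂ) from funext (e k)] at h

theorem summable_of_le {a : ℕ → ℂ} {b : ℕ → ℝ} {s : ℂ} (h : ∀ n : ℕ, 1 ≤ n → ‖a n‖ ≤ b n)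
    (hb : LSeriesSummable (fun n => (b n : ℂ)) s) : LSeriesSummable a s := by
  refine Summable.of_norm_bounded (g := fun n => ‖LSeries.term (fun n => (b n : ℂ)) s n‖) hb.norm
    fun n => ?_
  rcases Nat.eq_zero_or_pos n with rfl | hn
  · simp
  · rw [LSeries.norm_term_eq, LSeries.norm_term_eq, if_neg hn.ne', if_neg hn.ne']
    have h1 := h n hn
    rw [Complex.norm_real, Real.norm_eq_abs]
    gcongr
    exact h1.trans (le_abs_self _)

theorem Cls.summable (h : Cls k f g) {s : ℂ} (hs : 1 < s.re) : LSeriesSummable f s :=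
  summable_of_le h.le_Dk (Dk_summable k hs)

theorem L_summable {s : ℂ} (hs : 1 < s.re) : LSeriesSummable (fun n => ((Λ n : ℝ) : ℂ)) s :=
  LSeriesSummable_vonMangoldt hs

theorem Cls.g_summable (h : Cls k f g) {s : ℂ} (hs : 1 < s.re) : LSeriesSummable g s := by
  refine summable_of_le h.bound ?_
  have := (L_summable hs).smul (k : ℂ)
  refine (LSeriesSummable_congr s fun {n} hn => ?_).1 this
  simp

/-- coefficients of the logarithm -/
noncomputable def La (g : ℕ → ℂ) (n : ℕ) : ℂ := g n / (Real.log n : ℂ)

theorem Cls.log_mul (h : Cls k f g) (n : ℕ) (hn : n ≠ 0) : (Real.log n : ℂ) * La g n = g n := by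
  unfold La
  rcases Nat.lt_or_ge 1 n with h1 | h1
  · have hlog : 0 < Real.log n := Real.log_pos (by exact_mod_cast h1)
    have : (Real.log n : ℂ) ≠ 0 := by exact_mod_cast hlog.ne'
    field_simp
  · have : n = 1 := by omega
    rw [this, h.g_one]; simp

theorem La_norm_le {g : ℕ → ℂ} {k : ℕ} (hb : ∀ n : ℕ, 1 ≤ n → ‖g n‖ ≤ k * Λ n) (n : ℕ) (hn : 1 ≤ n) :
    ‖La g n‖ ≤ k := by
  unfold La
  rcases Nat.lt_or_ge 1 n with h1 | h1
  · have hlog : 0 < Real.log n := Real.log_pos (by exact_mod_cast h1)
    rw [norm_div, Complex.norm_real, Real.norm_of_nonneg hlog.le, div_le_iff₀ hlog]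
    exact (hb n hn).trans (mul_le_mul_of_nonneg_left vonMangoldt_le_log (Nat.cast_nonneg k))
  · have : n = 1 := by omega
    rw [this]; simp

theorem Cls.a_summable (h : Cls k f g) {s : ℂ} (hs : 1 < s.re) : LSeriesSummable (La g) s := by
  refine summable_of_le (b := fun _ => (k : ℝ)) (La_norm_le h.bound) ?_
  have := (LSeriesSummable_one_iff.2 hs).smul (k : ℂ)
  refine (LSeriesSummable_congr s fun {n} hn => ?_).1 this
  simp

theorem absc {a : ℕ → ℂ} (h : ∀ s : ℂ, 1 < s.re → LSeriesSummable a s) {s : ℂ} (hs : 1 < s.re) :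
    LSeries.abscissaOfAbsConv a < (s.re : EReal) := by
  have h4 : LSeries.abscissaOfAbsConv a ≤ ((1 : ℝ) : EReal) := by
    refine LSeries.abscissaOfAbsConv_le_of_forall_lt_LSeriesSummable ?_
    intro y hy
    exact h y (by simpa using hy)
  exact lt_of_le_of_lt h4 (by exact_mod_cast hs)

/-- the Euler product in the class -/
theorem Cls.exp_rep (h : Cls k f g) {s : ℂ} (hs : 1 < s.re) :
    LSeries f s = Complex.exp (LSeries (La g) s) := by
  have hf : ∀ z : ℂ, 1 < z.re → LSeriesSummable f z := fun z hz => h.summable hz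
  have ha : ∀ z : ℂ, 1 < z.re → LSeriesSummable (La g) z := fun z hz => h.a_summable hz
  set E : ℂ → ℂ := fun z => LSeries f z * Complex.exp (-LSeries (La g) z) with hE
  have hU : IsOpen {z : ℂ | 1 < z.re} := Complex.continuous_re.isOpen_preimage _ isOpen_Ioi
  have hUc : IsPreconnected {z : ℂ | 1 < z.re} := (convex_halfSpace_re_gt 1).isPreconnected
  have hder : ∀ z : ℂ, 1 < z.re → HasDerivAt E 0 z := by
    intro z hz
    have d1 := LSeries_hasDerivAt (absc hf hz)
    have d2 := LSeries_hasDerivAt (absc ha hz)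
    have e1 : LSeries (LSeries.logMul f) z = LSeries f z * LSeries g z := by
      rw [← LSeries_convolution' (hf z hz) (h.g_summable hz)]
      refine LSeries_congr (fun {n} hn => ?_) z
      rw [LSeries.convolution_def, LSeries.logMul]
      have := h.conv n (Nat.pos_of_ne_zero hn)
      show Complex.log n * f n = ∑ p ∈ n.divisorsAntidiagonal, f p.1 * g p.2
      rw [Nat.sum_divisorsAntidiagonal' (fun a b => f a * g b), ← this, mul_comm,
        ← Complex.natCast_log]
    have e2 : LSeries (LSeries.logMul (La g)) z = LSeries g z := by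
      refine LSeries_congr (fun {n} hn => ?_) z
      rw [LSeries.logMul, ← Complex.natCast_log, h.log_mul n hn]
    have d3 := d1.mul (d2.neg.cexp)
    rw [e1, e2] at d3
    refine d3.congr_deriv ?_
    ring
  have hconst : ∀ z : ℂ, 1 < z.re → E z = E s := fun z hz =>
    hU.is_const_of_deriv_eq_zero hUc (fun w hw => (hder w hw).differentiableAt.differentiableWithinAt)
      (fun w hw => (hder w hw).deriv) hz hs
  have hlim : Tendsto (fun x : ℝ => E x) atTop (𝓝 1) := by
    have l1 := LSeries.tendsto_atTop (f := f) (lt_of_lt_of_le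
      (absc hf (s := 2) (by norm_num)) le_top)
    have l2 := LSeries.tendsto_atTop (f := La g) (lt_of_lt_of_le
      (absc ha (s := 2) (by norm_num)) le_top)
    have l3 := l1.mul ((Complex.continuous_exp.tendsto _).comp l2.neg)
    have e0 : La g 1 = 0 := by unfold La; simp
    rw [h.one, e0, neg_zero, Complex.exp_zero, mul_one] at l3
    exact l3
  have hE1 : E s = 1 := by
    refine tendsto_nhds_unique ?_ hlim
    refine (tendsto_congr' ?_).2 tendsto_const_nhds
    filter_upwards [eventually_gt_atTop (1 : ℝ)] with x hx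
    exact hconst x (by simpa using hx)
  have h6 : LSeries f s * Complex.exp (-LSeries (La g) s) = 1 := hE1
  rw [Complex.exp_neg] at h6
  field_simp at h6
  exact h6

end Pool.Agent.Y853.RG
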