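import Pool.Agent.Y853.RG.Loc

set_option autoImplicit false

/-!
# Extremality of the Moebius function
-/

open Filter Topology Finset ArithmeticFunction Complex

open scoped ArithmeticFunction.zeta ArithmeticFunction.Moebius ComplexConjugate ComplexOrder

namespace Pool.Agent.Y853.RG

variable {k : ℕ} {f g : ℕ → ℂ}

/-- the local theorem with a twist -/
theorem local_tw (h : Cls k f g) (hk : 1 ≤ k) {θ : ℝ} (hθ : θ < 1) {D : Set ℂ} (hD : Dom θ D)
    {γ : ℝ} {Φ : ℂ → ℂ} (hΦ : DifferentiableOn ℂ Φ D)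
    (hL : ∀ s : ℂ, 1 < s.re → Φ s = LSeries f (s + γ * I))
    (hO : (fun σ : ℝ => LSeries f (σ + γ * I)) =O[𝓝[>] 1] fun σ => (σ - 1) ^ k) :
    (∀ σ : ℝ, θ < σ → Summable fun n : ℕ =>
      (k * vonMangoldt (n + 1) + (tw γ g (n + 1)).re) / ((n + 1 : ℕ) : ℝ) ^ σ) ∧
      ∀ s ∈ D, s ≠ 1 → riemannZeta s ≠ 0 ∧ Φ s ≠ 0 := by
  have h1 := local_main (h.twist γ) hk hθ hD hΦ (fun s hs => by rw [hL s hs, tw_L])
    (by simpa only [tw_L] using hO)
  exact ⟨fun σ hσ => rigid (h.twist γ) h1.1 hσ, h1.2⟩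

theorem dom_half (θ : ℝ) (hθ : θ < 1) : Dom θ {s : ℂ | θ < s.re} where
  isOpen := continuous_re.isOpen_preimage _ isOpen_Ioi
  conn := (convex_halfSpace_re_gt θ).isPreconnected
  symm := fun s hs => by simpa using hs
  half := fun s hs => by
    show θ < s.re
    linarith
  real := fun x hx => by simpa using hx
  le := fun s hs => hs

/-- power saving for one function in the class -/
theorem free_of_sums (h : Cls k f g) (hk : 1 ≤ k) {θ C : ℝ} (h0 : 0 ≤ θ) (hθ : θ < 1) {γ : ℝ}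
    (hO : (fun σ : ℝ => LSeries f (σ + γ * I)) =O[𝓝[>] 1] fun σ => (σ - 1) ^ k)
    (hS : ∀ x : ℝ, 1 ≤ x → ‖∑ n ∈ Finset.Icc 1 ⌊x⌋₊, f n‖ ≤ C * x ^ θ) :
    (∀ σ : ℝ, θ < σ → Summable fun n : ℕ =>
      (k * vonMangoldt (n + 1) + (tw γ g (n + 1)).re) / ((n + 1 : ℕ) : ℝ) ^ σ) ∧
    ∀ s : ℂ, θ < s.re → riemannZeta s ≠ 0 := by
  have hC : 0 ≤ C := by
    have := hS 1 le_rfl
    rw [Real.one_rpow, mul_one] at this
    exact (norm_nonneg _).trans this
  obtain ⟨F, h1, h2⟩ := H353.cont_F f θ C h0 hC (fun s hs => h.summable hs) hθ.le hS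
  have h3 := local_tw h hk hθ (dom_half θ hθ) (γ := γ) (Φ := fun s => F (s + γ * I)) (fun s hs => by
      have hs' : θ < (s + γ * I).re := by simpa using hs
      exact ((h1 _ hs').comp s (differentiableAt_id.add_const _)).differentiableWithinAt)
    (fun s hs => h2 _ (by simpa using hs)) hO
  refine ⟨h3.1, fun s hs => ?_⟩
  by_cases hs1 : s = 1
  · rw [hs1]
    exact riemannZeta_one_ne_zero
  · exact (h3.2 s hs hs1).1

theorem half_le_of_free {θ : ℝ} (h : ∀ s : ℂ, θ < s.re → riemannZeta s ≠ 0) : 1 / 2 ≤ θ := by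
  by_contra hcon
  push Not at hcon
  obtain ⟨ρ, h1, h2, _⟩ := H332.FL.exists_zero_re_ge_half 0
  exact h ρ (lt_of_lt_of_le hcon h2) h1

/-- `μ` -/
theorem mu_cont {θ : ℝ} (hθ : θ < 1) {D : Set ℂ} (hD : Dom θ D)
    (h : ∀ s ∈ D, s ≠ 1 → riemannZeta s ≠ 0) :
    DifferentiableOn ℂ (fun s => (s - 1) / ZZ s) D ∧
      ∀ s : ℂ, 1 < s.re → (s - 1) / ZZ s = LSeries (fun n => ((μ n : ℤ) : ℂ)) s := by
  constructor
  · intro s hs
    have h1 : ZZ s ≠ 0 := by
      by_cases hs1 : s = 1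
      · rw [hs1]; exact ZZ_one
      · rw [ZZ_eq hs1]
        exact mul_ne_zero (sub_ne_zero.2 hs1) (h s hs hs1)
    exact ((differentiableAt_id.sub_const _).div (ZZ_diff s) h1).differentiableWithinAt
  · intro s hs
    have hs1 : s ≠ 1 := by
      rintro rfl
      simp at hs
    have h2 := LSeries_zeta_mul_Lseries_moebius hs
    have h3 : LSeries (fun n => ((ζ n : ℕ) : ℂ)) s = riemannZeta s := LSeries_zeta_eq_riemannZeta hs
    rw [ZZ_eq hs1]
    have h4 : riemannZeta s ≠ 0 := riemannZeta_ne_zero_of_one_lt_re hs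
    have h5 : s - 1 ≠ 0 := sub_ne_zero.2 hs1
    rw [show (fun n => ((ζ n : ℕ) : ℂ)) = (fun n => ((ζ n : ℕ) : ℂ)) from rfl, h3] at h2
    field_simp
    rw [← h2]

theorem mu_order : (fun σ : ℝ => LSeries (fun n => ((μ n : ℤ) : ℂ)) (σ + (0 : ℝ) * I)) =O[𝓝[>] 1]
    fun σ => (σ - 1) ^ 1 := by
  have h1 : DifferentiableAt ℂ (fun s => (s - 1) / ZZ s) 1 :=
    (differentiableAt_id.sub_const _).div (ZZ_diff 1) ZZ_one
  have h2 := h1.isBigO_sub
  have h3 : Tendsto (fun σ : ℝ => (σ : ℂ)) (𝓝[>] 1) (𝓝 1) := by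
    have := (continuous_ofReal.tendsto (1 : ℝ)).mono_left (nhdsWithin_le_nhds (s := Set.Ioi 1))
    rwa [ofReal_one] at this
  have h4 := h2.comp_tendsto h3
  obtain ⟨C, hC⟩ := h4.bound
  refine Asymptotics.IsBigO.of_bound C ?_
  filter_upwards [hC, self_mem_nhdsWithin] with σ h5 h6
  have h7 : (1 : ℝ) < σ := h6
  have hs : 1 < (σ : ℂ).re := by simpa using h7
  have hs1 : (σ : ℂ) ≠ 1 := by
    rintro h
    rw [h] at hs; simp at hs
  have h8 : LSeries (fun n => ((μ n : ℤ) : ℂ)) σ = (σ - 1) / ZZ σ := by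
    have h2 := LSeries_zeta_mul_Lseries_moebius hs
    have h3 : LSeries (fun n => ((ζ n : ℕ) : ℂ)) σ = riemannZeta σ := LSeries_zeta_eq_riemannZeta hs
    rw [ZZ_eq hs1]
    have h4 : riemannZeta σ ≠ 0 := riemannZeta_ne_zero_of_one_lt_re hs
    have h5 : (σ : ℂ) - 1 ≠ 0 := sub_ne_zero.2 hs1
    rw [h3] at h2
    field_simp
    rw [← h2]
    ring
  have e : (σ : ℂ) + ((0 : ℝ) : ℂ) * I = σ := by simp
  rw [e, h8]
  simp only [Function.comp, sub_self, zero_div, sub_zero] at h5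
  refine h5.trans (le_of_eq ?_)
  congr 1
  rw [pow_one, ← ofReal_one, ← ofReal_sub, norm_real]

end Pool.Agent.Y853.RG
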