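import Pool.Agent.Y853.RG.Fin

set_option autoImplicit false

/-!
# Extremality of the Moebius function: final forms
-/

open Filter Topology Finset ArithmeticFunction Complex

open scoped ArithmeticFunction.zeta ArithmeticFunction.Moebius ComplexConjugate ComplexOrder

namespace Pool.Agent.Y853.RG

open Pool.Agent.Y853 (Me QQ1 QQ1_norm QQ1_of saving_of_free)

variable {k : ℕ} {f g : ℕ → ℂ}

theorem Me_trivial {θ : ℝ} (hθ : 1 ≤ θ) (ε : ℝ) (hε : 0 < ε) :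
    ∃ K : ℝ, ∀ x : ℝ, 1 ≤ x → |Me x| ≤ K * x ^ (θ + ε) := by
  refine ⟨1, fun x hx => ?_⟩
  have h1 : |Me x| ≤ x := by
    unfold Me
    refine (Finset.abs_sum_le_sum_abs _ _).trans ?_
    refine (Finset.sum_le_sum (g := fun _ => (1 : ℝ)) fun n _ => ?_).trans ?_
    · have := @ArithmeticFunction.abs_moebius_le_one n
      exact_mod_cast this
    · rw [Finset.sum_const, Nat.card_Icc, nsmul_eq_mul, mul_one, Nat.add_sub_cancel]
      exact Nat.floor_le (by linarith)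
  rw [one_mul]
  refine h1.trans ?_
  calc x = x ^ (1 : ℝ) := (Real.rpow_one x).symm
    _ ≤ x ^ (θ + ε) := Real.rpow_le_rpow_of_exponent_le hx (by linarith)

/-- the partial sums of a function in the class which vanishes to order `k` at `1 + iγ` -/
theorem sums (h : Cls k f g) (hk : 1 ≤ k) {γ : ℝ}
    (hO : (fun σ : ℝ => LSeries f (σ + γ * I)) =O[𝓝[>] 1] fun σ => (σ - 1) ^ k) {θ C : ℝ}
    (hS : ∀ x : ℝ, 1 ≤ x → ‖∑ n ∈ Finset.Icc 1 ⌊x⌋₊, f n‖ ≤ C * x ^ θ) :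
    1 / 2 ≤ θ ∧ ∀ ε : ℝ, 0 < ε → ∃ K : ℝ, ∀ x : ℝ, 1 ≤ x → |Me x| ≤ K * x ^ (θ + ε) := by
  rcases lt_or_ge θ 1 with h1 | h1
  · have hC : 0 ≤ C := by
      have := hS 1 le_rfl
      rw [Real.one_rpow, mul_one] at this
      exact (norm_nonneg _).trans this
    have h2 := (free_of_sums h hk (θ := max θ 0) (C := C) (le_max_right _ _) (max_lt h1 one_pos) hO
      (fun x hx => (hS x hx).trans (mul_le_mul_of_nonneg_left
        (Real.rpow_le_rpow_of_exponent_le hx (le_max_left _ _)) hC))).2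
    have h3 := half_le_of_free h2
    have h4 : 1 / 2 ≤ θ := by
      rcases le_max_iff.1 h3 with h | h
      · exact h
      · linarith
    rw [max_eq_left (by linarith)] at h2
    exact ⟨h4, saving_of_free h4 h2⟩
  · exact ⟨by linarith, fun ε hε => Me_trivial h1 ε hε⟩

/-- completely multiplicative functions -/
theorem cls_cm {f : ℕ → ℂ} (h1 : f 1 = 1) (hm : ∀ m n : ℕ, 1 ≤ m → 1 ≤ n → f (m * n) = f m * f n)
    (hb : ∀ n : ℕ, 1 ≤ n → ‖f n‖ ≤ 1) :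
    Cls 1 f (fun n => f n * ((vonMangoldt n : ℝ) : ℂ)) where
  one := h1
  conv := by
    intro n hn
    rw [← vonMangoldt_sum]
    push_cast
    rw [Finset.mul_sum]
    refine Finset.sum_congr rfl fun d hd => ?_
    have hdd := Nat.dvd_of_mem_divisors hd
    have hd0 : 1 ≤ d := Nat.pos_of_mem_divisors hd
    have h4 : 1 ≤ n / d := Nat.div_pos (Nat.le_of_dvd (by omega) hdd) (by omega)
    have h5 := hm (n / d) d h4 hd0
    rw [Nat.div_mul_cancel hdd] at h5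
    rw [h5, mul_assoc]
  bound := by
    intro n hn
    rw [norm_mul, norm_real, Real.norm_of_nonneg vonMangoldt_nonneg, Nat.cast_one]
    exact mul_le_mul_of_nonneg_right (hb n hn) vonMangoldt_nonneg

/-- for `k = 1` it suffices that the series tends to zero -/
theorem sums_one (h : Cls 1 f g) {γ : ℝ}
    (hO : Tendsto (fun σ : ℝ => LSeries f (σ + γ * I)) (𝓝[>] 1) (𝓝 0)) {θ C : ℝ}
    (hS : ∀ x : ℝ, 1 ≤ x → ‖∑ n ∈ Finset.Icc 1 ⌊x⌋₊, f n‖ ≤ C * x ^ θ) :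
    1 / 2 ≤ θ ∧ ∀ ε : ℝ, 0 < ε → ∃ K : ℝ, ∀ x : ℝ, 1 ≤ x → |Me x| ≤ K * x ^ (θ + ε) := by
  rcases lt_or_ge θ 1 with h1 | h1
  · refine sums h le_rfl (γ := γ) ?_ hS
    have hC : 0 ≤ C := by
      have := hS 1 le_rfl
      rw [Real.one_rpow, mul_one] at this
      exact (norm_nonneg _).trans this
    obtain ⟨F, h2, h3⟩ := H353.cont_F f (max θ 0) C (le_max_right _ _) hC (fun s hs => h.summable hs)
      (max_le h1.le zero_le_one) (fun x hx => (hS x hx).trans (mul_le_mul_of_nonneg_left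
        (Real.rpow_le_rpow_of_exponent_le hx (le_max_left _ _)) hC))
    have h4 : DifferentiableAt ℂ F (1 + γ * I) := h2 _ (by simpa using h1)
    have h5 : Tendsto (fun σ : ℝ => (σ : ℂ) + γ * I) (𝓝[>] 1) (𝓝 (1 + γ * I)) := by
      have := (continuous_ofReal.tendsto (1 : ℝ)).mono_left (nhdsWithin_le_nhds (s := Set.Ioi 1))
      rw [ofReal_one] at this
      exact this.add_const _
    have h6 : Tendsto (fun σ : ℝ => F ((σ : ℂ) + γ * I)) (𝓝[>] 1) (𝓝 (F (1 + γ * I))) :=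
      h4.continuousAt.tendsto.comp h5
    have hev : ∀ᶠ σ : ℝ in 𝓝[>] 1, F ((σ : ℂ) + γ * I) = LSeries f (σ + γ * I) := by
      filter_upwards [self_mem_nhdsWithin] with σ hσ
      exact h3 _ (by simpa using hσ)
    have h7 : F (1 + γ * I) = 0 := tendsto_nhds_unique h6 ((tendsto_congr' hev).2 hO)
    have h8 := h4.isBigO_sub.comp_tendsto h5
    obtain ⟨K, hK⟩ := h8.bound
    refine Asymptotics.IsBigO.of_bound K ?_
    filter_upwards [hK, hev, self_mem_nhdsWithin] with σ h9 h10 h11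
    simp only [Function.comp, h7, sub_zero, h10] at h9
    refine h9.trans (le_of_eq ?_)
    congr 1
    rw [pow_one, show (σ : ℂ) + γ * I - (1 + γ * I) = ((σ - 1 : ℝ) : ℂ) by push_cast; ring, norm_real]
  · exact ⟨by linarith, fun ε hε => Me_trivial h1 ε hε⟩

theorem region_iff {θ : ℝ} {D : Set ℂ} (hθ : θ < 1) (hD : Dom θ D) :
    (∀ s ∈ D, s ≠ 1 → riemannZeta s ≠ 0) ↔
      ∃ (k : ℕ) (f g : ℕ → ℂ) (γ : ℝ), 1 ≤ k ∧ Cls k f g ∧
        ((fun σ : ℝ => LSeries f (σ + γ * I)) =O[𝓝[>] 1] fun σ => (σ - 1) ^ k) ∧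
        ∃ Φ : ℂ → ℂ, DifferentiableOn ℂ Φ D ∧ ∀ s : ℂ, 1 < s.re → Φ s = LSeries f (s + γ * I) := by
  constructor
  · intro h
    obtain ⟨h1, h2⟩ := mu_cont hθ hD h
    refine ⟨1, _, _, 0, le_rfl, cls_mu, mu_order, _, h1, fun s hs => ?_⟩
    rw [h2 s hs]
    congr 1
    simp
  · rintro ⟨k, f, g, γ, hk, h, hO, Φ, hΦ, hL⟩ s hs hs1
    exact ((local_tw h hk hθ hD hΦ hL hO).2 s hs hs1).1

theorem Q1_iff : QQ1 ↔ ∃ (k : ℕ) (f g : ℕ → ℂ) (γ θ C : ℝ), 1 ≤ k ∧ Cls k f g ∧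
    ((fun σ : ℝ => LSeries f (σ + γ * I)) =O[𝓝[>] 1] fun σ => (σ - 1) ^ k) ∧ θ < 1 ∧
    ∀ x : ℝ, 1 ≤ x → ‖∑ n ∈ Finset.Icc 1 ⌊x⌋₊, f n‖ ≤ C * x ^ θ := by
  constructor
  · intro h
    obtain ⟨θ, C, h1, h2, h3, h4⟩ := QQ1_norm h
    refine ⟨1, _, _, 0, θ, C, le_rfl, cls_mu, mu_order, h2, fun x hx => ?_⟩
    have h5 := h4 x hx
    unfold Me at h5
    have e : ∑ n ∈ Finset.Icc 1 ⌊x⌋₊, ((μ n : ℤ) : ℂ) =
        ((∑ n ∈ Finset.Icc 1 ⌊x⌋₊, ((μ n : ℤ) : ℝ) : ℝ) : ℂ) := by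
      push_cast; rfl
    rw [e, norm_real, Real.norm_eq_abs]
    exact h5
  · rintro ⟨k, f, g, γ, θ, C, hk, h, hO, hθ, hS⟩
    exact QQ1_of hθ (sums h hk hO hS).2

end Pool.Agent.Y853.RG
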