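import Pool.Agent.Y853.RG.Main
import Pool.Agent.Y853.Blocks
import Pool.Agent.H353R2.R2
import Pool.Agent.H332R2.FL.ZeroExists

set_option autoImplicit false

/-!
# The local theorem
-/

open Filter Topology Finset ArithmeticFunction Complex

open scoped ArithmeticFunction.zeta ArithmeticFunction.Moebius ComplexConjugate ComplexOrder

namespace Pool.Agent.Y853.RG

variable {k : ℕ} {f g : ℕ → ℂ}

/-- a function with a zero of order at least `k` at the point `1` -/
theorem order_fac {D : Set ℂ} (hD : IsOpen D) (h1 : (1 : ℂ) ∈ D) : ∀ (k : ℕ) (Φ : ℂ → ℂ),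
    DifferentiableOn ℂ Φ D → ((fun σ : ℝ => Φ σ) =O[𝓝[>] 1] fun σ => (σ - 1) ^ k) →
    ∃ Ψ : ℂ → ℂ, DifferentiableOn ℂ Ψ D ∧ ∀ s : ℂ, Φ s = (s - 1) ^ k * Ψ s := by
  intro k
  induction k with
  | zero => exact fun Φ hΦ _ => ⟨Φ, hΦ, fun s => by simp⟩
  | succ k ih =>
    intro Φ hΦ hO
    have hcont : Tendsto (fun σ : ℝ => Φ σ) (𝓝[>] 1) (𝓝 (Φ 1)) := by
      have h2 : ContinuousAt Φ ((1 : ℝ) : ℂ) := by
        rw [ofReal_one]
        exact (hΦ.differentiableAt (hD.mem_nhds h1)).continuousAt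
      have h3 := h2.tendsto.comp ((continuous_ofReal.tendsto (1 : ℝ)).mono_left
        (nhdsWithin_le_nhds (s := Set.Ioi 1)))
      rw [ofReal_one] at h3
      exact h3
    have hz : Tendsto (fun σ : ℝ => (σ - 1) ^ (k + 1)) (𝓝[>] 1) (𝓝 0) := by
      have h4 : Tendsto (fun σ : ℝ => (σ - 1) ^ (k + 1)) (𝓝 1) (𝓝 ((1 - 1) ^ (k + 1))) :=
        (Continuous.tendsto (by fun_prop) 1)
      rw [sub_self, zero_pow (by omega)] at h4
      exact h4.mono_left nhdsWithin_le_nhds
    have h0 : Φ 1 = 0 := tendsto_nhds_unique hcont (hO.trans_tendsto hz)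
    have hfac : ∀ s : ℂ, Φ s = (s - 1) * dslope Φ 1 s := by
      intro s
      have := sub_smul_dslope Φ 1 s
      rw [h0, sub_zero, smul_eq_mul] at this
      exact this.symm
    obtain ⟨Ψ, h5, h6⟩ := ih (dslope Φ 1) ((differentiableOn_dslope (hD.mem_nhds h1)).2 hΦ) (by
      obtain ⟨C, hC⟩ := hO.bound
      refine Asymptotics.IsBigO.of_bound C ?_
      filter_upwards [hC, self_mem_nhdsWithin] with σ h7 h8
      have h9 : 0 < σ - 1 := sub_pos.2 h8
      rw [hfac, norm_mul, pow_succ, norm_mul] at h7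
      have h10 : ‖(σ : ℂ) - 1‖ = σ - 1 := by
        rw [← ofReal_one, ← ofReal_sub, norm_real, Real.norm_of_nonneg h9.le]
      rw [h10, Real.norm_of_nonneg h9.le] at h7
      have h11 : (σ - 1) * ‖dslope Φ 1 σ‖ ≤ (σ - 1) * (C * ‖(σ - 1) ^ k‖) := by
        refine h7.trans (le_of_eq ?_); ring
      exact le_of_mul_le_mul_left h11 h9)
    refine ⟨Ψ, h5, fun s => ?_⟩
    rw [hfac, h6, pow_succ]
    ring

/-- `(s - 1) ζ(s)` -/
noncomputable def ZZ (s : ℂ) : ℂ := DirichletCharacter.LFunctionTrivChar₁ 1 s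

theorem ZZ_diff : Differentiable ℂ ZZ := DirichletCharacter.differentiable_LFunctionTrivChar₁ 1

theorem ZZ_eq {s : ℂ} (hs : s ≠ 1) : ZZ s = (s - 1) * riemannZeta s := by
  unfold ZZ
  rw [DirichletCharacter.LFunctionTrivChar₁, Function.update_of_ne hs,
    DirichletCharacter.LFunctionTrivChar_eq_mul_riemannZeta hs]
  simp

theorem ZZ_one : ZZ 1 ≠ 0 := DirichletCharacter.LFunctionTrivChar₁_apply_one_ne_zero 1

/-- the domains: connected, open, symmetric, containing the half-plane `Re s > 1` and the real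
half-line `(θ, ∞)`, and contained in the half-plane `Re s > θ` -/
structure Dom (θ : ℝ) (D : Set ℂ) : Prop where
  isOpen : IsOpen D
  conn : IsPreconnected D
  symm : ∀ s ∈ D, conj s ∈ D
  half : ∀ s : ℂ, 1 < s.re → s ∈ D
  real : ∀ x : ℝ, θ < x → (x : ℂ) ∈ D
  le : ∀ s ∈ D, θ < s.re

theorem Dom.one_mem {θ : ℝ} {D : Set ℂ} (hD : Dom θ D) (hθ : θ < 1) : (1 : ℂ) ∈ D := by
  have := hD.real 1 hθ
  rwa [ofReal_one] at this

/-- the local theorem -/
theorem local_main (h : Cls k f g) (hk : 1 ≤ k) {θ : ℝ} (hθ : θ < 1) {D : Set ℂ} (hD : Dom θ D)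
    {Φ : ℂ → ℂ} (hΦ : DifferentiableOn ℂ Φ D) (hL : ∀ s : ℂ, 1 < s.re → Φ s = LSeries f s)
    (hO : (fun σ : ℝ => LSeries f σ) =O[𝓝[>] 1] fun σ => (σ - 1) ^ k) :
    (∀ x : ℝ, θ < x → LSeriesSummable (dd k g) x) ∧
      ∀ s ∈ D, s ≠ 1 → riemannZeta s ≠ 0 ∧ Φ s ≠ 0 := by
  have hO' : (fun σ : ℝ => Φ σ) =O[𝓝[>] 1] fun σ => (σ - 1) ^ k := by
    refine hO.congr' ?_ EventuallyEq.rfl
    filter_upwards [self_mem_nhdsWithin] with σ hσ
    exact (hL σ (by simpa using hσ)).symm
  obtain ⟨Ψ, h1, h2⟩ := order_fac hD.isOpen (hD.one_mem hθ) k Φ hΦ hO'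
  set R : ℂ → ℂ := fun s => Ψ s * conj (Ψ (conj s)) * ZZ s ^ (2 * k) with hR
  have hRd : DifferentiableOn ℂ R D := by
    have a1 : DifferentiableOn ℂ (fun s => conj (Ψ (conj s))) D := by
      intro s hs
      have h3 : DifferentiableAt ℂ Ψ (conj s) :=
        h1.differentiableAt (hD.isOpen.mem_nhds (hD.symm s hs))
      have h4 := h3.star_star
      rw [star_def, conj_conj] at h4
      exact h4.differentiableWithinAt
    exact (h1.mul a1).mul (ZZ_diff.differentiableOn.pow _)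
  have hRe : ∀ s : ℂ, 1 < s.re → R s = exp (LSeries (dd k g) s) := by
    intro s hs
    have hs1 : s ≠ 1 := by
      rintro rfl
      simp at hs
    have hs' : 1 < (conj s).re := by simpa using hs
    rw [(dd_sum h hs).2, ← hL s hs, ← hL _ hs', h2 s, h2 (conj s), hR]
    simp only [map_mul, map_pow, map_sub, map_one, conj_conj]
    rw [ZZ_eq hs1, mul_pow, pow_mul' (s - 1) 2 k]
    ring
  have hsum : ∀ x : ℝ, θ < x → LSeriesSummable (dd k g) x := fun x hx =>
    landau_dom (dd_nonneg h) hD.isOpen hD.real hRd (fun s hs => (dd_sum h hs).1) hRe hx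
  refine ⟨hsum, ?_⟩
  have hsum' : ∀ s : ℂ, θ < s.re → LSeriesSummable (dd k g) s := fun s hs =>
    (hsum s.re hs).of_re_le_re (by simp)
  have hEan : AnalyticOnNhd ℂ (fun s => exp (LSeries (dd k g) s)) D := by
    intro s hs
    refine AnalyticAt.cexp ((LSeries_analyticOnNhd (dd k g)) s ?_)
    have h4 : LSeries.abscissaOfAbsConv (dd k g) ≤ ((θ : ℝ) : EReal) := by
      refine LSeries.abscissaOfAbsConv_le_of_forall_lt_LSeriesSummable ?_
      intro y hy
      exact hsum y hy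
    exact lt_of_le_of_lt h4 (by exact_mod_cast hD.le s hs)
  have hRan : AnalyticOnNhd ℂ R D := hRd.analyticOnNhd hD.isOpen
  have hopen1 : IsOpen {s : ℂ | 1 < s.re} := continuous_re.isOpen_preimage _ isOpen_Ioi
  have hEq : Set.EqOn R (fun s => exp (LSeries (dd k g) s)) D := by
    refine hRan.eqOn_of_preconnected_of_eventuallyEq hEan hD.conn (z₀ := (2 : ℂ))
      (hD.half 2 (by norm_num)) ?_
    filter_upwards [hopen1.mem_nhds (show (2 : ℂ) ∈ {s : ℂ | 1 < s.re} by simp)] with s hs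
    exact hRe s hs
  intro s hs hs1
  have h5 : R s ≠ 0 := by
    rw [hEq hs]
    exact exp_ne_zero _
  have h6 : Ψ s ≠ 0 := left_ne_zero_of_mul (left_ne_zero_of_mul h5)
  have h7 : ZZ s ≠ 0 := by
    have := right_ne_zero_of_mul h5
    exact fun h0 => this (by rw [h0, zero_pow (by omega)])
  rw [ZZ_eq hs1] at h7
  refine ⟨right_ne_zero_of_mul h7, ?_⟩
  rw [h2 s]
  exact mul_ne_zero (pow_ne_zero _ (sub_ne_zero.2 hs1)) h6

/-- summability of the von Mangoldt-type series -/
theorem rigid (h : Cls k f g) {θ : ℝ} (hs : ∀ x : ℝ, θ < x → LSeriesSummable (dd k g) x) {σ : ℝ}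
    (hσ : θ < σ) : Summable fun n : ℕ =>
      (k * vonMangoldt (n + 1) + (g (n + 1)).re) / ((n + 1 : ℕ) : ℝ) ^ σ := by
  set τ : ℝ := (θ + σ) / 2 with hτ
  have h1 : θ < τ := by rw [hτ]; linarith
  have h2 : 0 < σ - τ := by rw [hτ]; linarith
  have h3 := (summable_nat_add_iff 1).2 (hs τ h1).norm
  refine Summable.of_norm_bounded
    (g := fun n => (1 / (σ - τ)) * ‖LSeries.term (dd k g) (τ : ℂ) (n + 1)‖)
    (h3.mul_left _) fun m => ?_
  have key : ∀ n : ℕ, 1 ≤ n → ‖(k * vonMangoldt n + (g n).re) / (n : ℝ) ^ σ‖ ≤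
      (1 / (σ - τ)) * ‖LSeries.term (dd k g) (τ : ℂ) n‖ := by
    intro n hn
    have hn0 : (0 : ℝ) < n := by exact_mod_cast hn
    rcases Nat.lt_or_ge 1 n with h4 | h4
    · have hlog : 0 < Real.log n := Real.log_pos (by exact_mod_cast h4)
      have hdd := dd_nonneg h n
      unfold dd at hdd
      rw [Pi.zero_apply, zero_le_real] at hdd
      have e1 : (La g n).re = (g n).re / Real.log n := by
        unfold La
        rw [div_ofReal_re]
      have e2 : k * vonMangoldt n + (g n).re =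
          Real.log n / 2 * (2 * (La g n).re + 2 * k * (vonMangoldt n / Real.log n)) := by
        rw [e1]
        field_simp
        ring
      rw [LSeries.norm_term_eq, if_neg (by omega), ofReal_re, e2]
      unfold dd
      rw [norm_real, Real.norm_of_nonneg hdd]
      set w : ℝ := 2 * (La g n).re + 2 * k * (vonMangoldt n / Real.log n) with hw
      rw [Real.norm_of_nonneg (by positivity)]
      have h5 : Real.log n ≤ (n : ℝ) ^ (σ - τ) / (σ - τ) := Real.log_le_rpow_div hn0.le h2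
      have h6 : (n : ℝ) ^ σ = (n : ℝ) ^ (σ - τ) * (n : ℝ) ^ τ := by
        rw [← Real.rpow_add hn0]; congr 1; ring
      rw [h6]
      have hp1 : 0 < (n : ℝ) ^ (σ - τ) := by positivity
      have hp2 : 0 < (n : ℝ) ^ τ := by positivity
      rw [div_le_iff₀ (by positivity)]
      have e3 : 1 / (σ - τ) * (w / (n : ℝ) ^ τ) * ((n : ℝ) ^ (σ - τ) * (n : ℝ) ^ τ) =
          ((n : ℝ) ^ (σ - τ) / (σ - τ)) * w := by
        field_simp
      rw [e3]
      calc Real.log n / 2 * w ≤ Real.log n * w := by nlinarith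
        _ ≤ _ := mul_le_mul_of_nonneg_right h5 hdd
    · have : n = 1 := by omega
      rw [this, h.g_one]
      simp only [vonMangoldt_apply_one, mul_zero, zero_re, add_zero, zero_div, norm_zero]
      positivity
  exact key (m + 1) (by omega)

end Pool.Agent.Y853.RG
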