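import Pool.Agent.Y853.RG.Land
import Pool.Agent.Y853.RG.Cls

set_option autoImplicit false

/-!
# The zeros of zeta and Dirichlet series which vanish as much as possible at a point
-/

open Filter Topology Finset ArithmeticFunction Complex

open scoped ArithmeticFunction.zeta ArithmeticFunction.Moebius ComplexConjugate ComplexOrder

namespace Pool.Agent.Y853.RG

variable {k : ℕ} {f g : ℕ → ℂ}

/-! ### Twists, conjugates, the functions `1` and `μ` -/

/-- twist by `n^{-iγ}` -/
noncomputable def tw (γ : ℝ) (f : ℕ → ℂ) (n : ℕ) : ℂ := f n * (n : ℂ) ^ (-(γ * I))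

theorem Cls.twist (h : Cls k f g) (γ : ℝ) : Cls k (tw γ f) (tw γ g) where
  one := by
    unfold tw
    rw [h.one]; simp
  conv := by
    intro n hn
    unfold tw
    have e := h.conv n hn
    have e1 : f n * (n : ℂ) ^ (-(γ * I)) * (Real.log n : ℂ) = (n : ℂ) ^ (-(γ * I)) *
      (f n * (Real.log n : ℂ)) := by ring
    rw [e1, e, Finset.mul_sum]
    refine Finset.sum_congr rfl fun d hd => ?_
    have h1 : ((n / d : ℕ) : ℂ) ^ (-(γ * I)) * (d : ℂ) ^ (-(γ * I)) = (n : ℂ) ^ (-(γ * I)) := by
      rw [← natCast_mul_natCast_cpow, ← Nat.cast_mul, Nat.div_mul_cancel (Nat.dvd_of_mem_divisors hd)]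
    rw [← h1]
    ring
  bound := by
    intro n hn
    unfold tw
    rw [norm_mul, norm_natCast_cpow_of_pos hn]
    have : (-(γ * I) : ℂ).re = 0 := by simp
    rw [this, Real.rpow_zero, mul_one]
    exact h.bound n hn

theorem tw_L (f : ℕ → ℂ) (γ : ℝ) (s : ℂ) : LSeries (tw γ f) s = LSeries f (s + γ * I) := by
  refine tsum_congr fun n => ?_
  rcases Nat.eq_zero_or_pos n with rfl | hn
  · simp
  · rw [LSeries.term_of_ne_zero hn.ne', LSeries.term_of_ne_zero hn.ne']
    unfold tw
    have hn0 : (n : ℂ) ≠ 0 := by exact_mod_cast hn.ne'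
    rw [cpow_neg, cpow_add _ _ hn0]
    field_simp

theorem conj_L (a : ℕ → ℂ) (s : ℂ) : LSeries (fun n => conj (a n)) s = conj (LSeries a (conj s)) := by
  unfold LSeries
  rw [Complex.conj_tsum]
  refine tsum_congr fun n => ?_
  rcases Nat.eq_zero_or_pos n with rfl | hn
  · simp
  · rw [LSeries.term_of_ne_zero hn.ne', LSeries.term_of_ne_zero hn.ne', map_div₀]
    congr 1
    have h1 : (n : ℂ).arg ≠ Real.pi := by
      rw [natCast_arg]; exact Real.pi_pos.ne
    have h2 := cpow_conj (n : ℂ) (conj s) h1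
    rw [conj_conj, conj_natCast] at h2
    exact h2

theorem conj_summable {a : ℕ → ℂ} {s : ℂ} (h : LSeriesSummable a (s.re : ℂ)) :
    LSeriesSummable (fun n => conj (a n)) s := by
  refine Summable.of_norm_bounded (g := fun n => ‖LSeries.term a (s.re : ℂ) n‖) h.norm fun n => ?_
  rw [LSeries.norm_term_eq, LSeries.norm_term_eq]
  simp

theorem cls_one : Cls 1 (fun _ => 1) (fun n => ((vonMangoldt n : ℝ) : ℂ)) where
  one := rfl
  conv := by
    intro n _
    rw [one_mul, ← vonMangoldt_sum]
    push_cast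
    simp
  bound := by
    intro n _
    rw [norm_real, Real.norm_of_nonneg vonMangoldt_nonneg, Nat.cast_one, one_mul]

theorem zeta_exp {s : ℂ} (hs : 1 < s.re) :
    riemannZeta s = exp (LSeries (La fun n => ((vonMangoldt n : ℝ) : ℂ)) s) := by
  rw [← cls_one.exp_rep hs, ← LSeries_one_eq_riemannZeta hs]
  rfl

theorem mu_log : ((μ : ArithmeticFunction ℤ) : ArithmeticFunction ℝ).pmul log =
    -(((μ : ArithmeticFunction ℤ) : ArithmeticFunction ℝ) * vonMangoldt) := by
  set M : ArithmeticFunction ℝ := ((μ : ArithmeticFunction ℤ) : ArithmeticFunction ℝ) with hM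
  set Z : ArithmeticFunction ℝ := ((ζ : ArithmeticFunction ℕ) : ArithmeticFunction ℝ) with hZ
  have h1 : M * Z = 1 := coe_moebius_mul_coe_zeta
  have h2 := log_der M Z
  rw [h1, pmul_zeta_log] at h2
  have h3 : (1 : ArithmeticFunction ℝ).pmul log = 0 := by
    ext n
    rw [pmul_apply, one_apply, ArithmeticFunction.zero_apply]
    split_ifs with h
    · rw [h, log_apply]; simp
    · rw [zero_mul]
  rw [h3] at h2
  have h4 : M.pmul log = M.pmul log * (M * Z) := by rw [h1, mul_one]
  have h5 : M.pmul log * Z = -(M * (vonMangoldt * Z)) := by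
    rw [eq_neg_iff_add_eq_zero, hZ, vonMangoldt_mul_zeta]
    exact h2.symm
  calc M.pmul log = (M.pmul log * Z) * M := by
        rw [mul_assoc, mul_comm Z M, h1, mul_one]
    _ = -(M * (vonMangoldt * Z)) * M := by rw [h5]
    _ = -(M * vonMangoldt * (M * Z)) := by ring
    _ = _ := by rw [h1, mul_one]

theorem cls_mu : Cls 1 (fun n => ((μ n : ℤ) : ℂ)) (fun n => -((vonMangoldt n : ℝ) : ℂ)) where
  one := by simp
  conv := by
    intro n hn
    have h1 := congrArg (fun F : ArithmeticFunction ℝ => F n) mu_log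
    simp only [pmul_apply, intCoe_apply, log_apply] at h1
    have h2 : (-(((μ : ArithmeticFunction ℤ) : ArithmeticFunction ℝ) * vonMangoldt)) n =
      ∑ d ∈ n.divisors, ((μ (n / d) : ℤ) : ℝ) * (-vonMangoldt d) := by
      rw [← neg_one_mul, show ((-1 : ArithmeticFunction ℝ) * (((μ : ArithmeticFunction ℤ) :
        ArithmeticFunction ℝ) * vonMangoldt)) = -((((μ : ArithmeticFunction ℤ) :
        ArithmeticFunction ℝ) * vonMangoldt)) by ring]
      have h3 : ∀ F : ArithmeticFunction ℝ, (-F) n = -(F n) := fun F => rfl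
      rw [h3, mul_apply, Nat.sum_divisorsAntidiagonal' (fun a b =>
        ((μ : ArithmeticFunction ℤ) : ArithmeticFunction ℝ) a * vonMangoldt b), ← Finset.sum_neg_distrib]
      refine Finset.sum_congr rfl fun d _ => ?_
      rw [intCoe_apply]; ring
    rw [h2] at h1
    exact_mod_cast h1
  bound := by
    intro n _
    rw [norm_neg, norm_real, Real.norm_of_nonneg vonMangoldt_nonneg, Nat.cast_one, one_mul]

/-! ### The Dirichlet series with nonnegative coefficients -/

/-- the coefficients of `log (F F* ζ^{2k})` -/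
noncomputable def dd (k : ℕ) (g : ℕ → ℂ) (n : ℕ) : ℂ :=
  ((2 * (La g n).re + 2 * k * (vonMangoldt n / Real.log n) : ℝ) : ℂ)

theorem dd_nonneg (h : Cls k f g) : 0 ≤ dd k g := by
  intro n
  unfold dd
  rw [Pi.zero_apply, zero_le_real]
  rcases Nat.eq_zero_or_pos n with rfl | hn
  · unfold La; simp
  rcases Nat.lt_or_ge 1 n with h1 | h1
  · have hlog : 0 < Real.log n := Real.log_pos (by exact_mod_cast h1)
    have h2 : ‖La g n‖ ≤ k * (vonMangoldt n / Real.log n) := by
      unfold La
      rw [norm_div, norm_real, Real.norm_of_nonneg hlog.le, ← mul_div_assoc]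
      gcongr
      exact h.bound n hn
    have h3 := abs_le.1 (abs_re_le_norm (La g n))
    nlinarith [h3.1]
  · have : n = 1 := by omega
    unfold La
    rw [this]; simp

theorem dd_sum (h : Cls k f g) {s : ℂ} (hs : 1 < s.re) :
    LSeriesSummable (dd k g) s ∧ exp (LSeries (dd k g) s) =
      LSeries f s * conj (LSeries f (conj s)) * riemannZeta s ^ (2 * k) := by
  have hs' : 1 < (conj s).re := by simpa using hs
  have s1 := h.a_summable hs
  have s2 : LSeriesSummable (fun n => conj (La g n)) s :=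
    conj_summable (h.a_summable (by simpa using hs))
  have s3 := cls_one.a_summable hs
  have s4 := s3.smul ((2 * k : ℕ) : ℂ)
  have e : ∀ {n : ℕ}, n ≠ 0 → (La g + (fun n => conj (La g n)) +
      ((2 * k : ℕ) : ℂ) • La (fun n => ((vonMangoldt n : ℝ) : ℂ))) n = dd k g n := by
    intro n _
    unfold dd
    simp only [Pi.add_apply, Pi.smul_apply, smul_eq_mul]
    have : La g n + conj (La g n) = ((2 * (La g n).re : ℝ) : ℂ) := by
      rw [add_conj]
    rw [this]
    unfold La
    push_cast
    ring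
  have s5 := (s1.add s2).add s4
  refine ⟨(LSeriesSummable_congr s e).1 s5, ?_⟩
  rw [← LSeries_congr e s, LSeries_add (s1.add s2) s4, LSeries_add s1 s2, LSeries_smul, exp_add, exp_add,
    ← h.exp_rep hs, conj_L, exp_conj, ← h.exp_rep hs', exp_nat_mul, zeta_exp hs]

end Pool.Agent.Y853.RG
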